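import Pool.Agent.H29.L2.Cover
import Pool.Agent.H3.L2.Moments

/-!
Convolutions of spectral measures: spectral measures and L2-torsion of tensor products.
-/

set_option autoImplicit false
set_option linter.style.haveILetI false

open MeasureTheory Filter Topology Set
open scoped ENNReal NNReal

namespace Pool.H29.L2

open Pool.H3.L2 Pool.H29.Mom

/-! ### Convolution of measures on intervals -/

section conv

variable {R R' : ℝ} {μ ν : Measure ℝ}

theorem ae_prod (hμ : On R μ) (hν : On R' ν) :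
    ∀ᵐ z ∂(μ.prod ν), z.1 ∈ Icc 0 R ∧ z.2 ∈ Icc 0 R' := by
  haveI := hμ.fin
  haveI := hν.fin
  exact (Measure.quasiMeasurePreserving_fst.ae hμ.ae).and
    (Measure.quasiMeasurePreserving_snd.ae hν.ae)

theorem On_conv (hμ : On R μ) (hν : On R' ν) : On (R + R') (μ.conv ν) := by
  haveI := hμ.fin
  haveI := hν.fin
  refine ⟨inferInstance, ?_⟩
  rw [Measure.conv, Measure.map_apply (by fun_prop) measurableSet_Icc.compl]
  have h := ae_prod hμ hν
  rw [ae_iff] at h
  refine measure_mono_null ?_ h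
  intro z hz hc
  exact hz ⟨add_nonneg hc.1.1 hc.2.1, add_le_add hc.1.2 hc.2.2⟩

theorem conv_zero_atom (hμ : On R μ) (hν : On R' ν) (h0 : ν {0} = 0) : (μ.conv ν) {0} = 0 := by
  haveI := hμ.fin
  haveI := hν.fin
  rw [Measure.conv, Measure.map_apply (by fun_prop) (measurableSet_singleton 0)]
  have h := ae_prod hμ hν
  have h1 : ∀ᵐ z ∂(μ.prod ν), z.2 ≠ 0 := by
    refine Measure.quasiMeasurePreserving_snd.ae (p := fun y => y ≠ 0) ?_
    rw [ae_iff]
    simpa using h0
  have h2 := h.and h1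
  rw [ae_iff] at h2
  refine measure_mono_null ?_ h2
  intro z hz hc
  have h3 : z.1 + z.2 = 0 := hz
  have h4 := hc.1.1.1
  have h5 := hc.1.2.1
  exact hc.2 (by linarith)

theorem abs_log_add_le {x y K : ℝ} (hx : 0 ≤ x) (hy : 0 < y) (hK : x + y ≤ K) :
    |Real.log (x + y)| ≤ |Real.log y| + K := by
  have hxy : 0 < x + y := by linarith
  rcases le_total 1 (x + y) with h | h
  · rw [abs_of_nonneg (Real.log_nonneg h)]
    have h1 := Real.log_le_self hxy.le
    have h2 := abs_nonneg (Real.log y)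
    linarith
  · rw [abs_of_nonpos (Real.log_nonpos hxy.le h)]
    have h1 : Real.log y ≤ Real.log (x + y) := Real.log_le_log hy (by linarith)
    have h2 := neg_le_abs (Real.log y)
    linarith

theorem integrable_log_prod (hμ : On R μ) (hν : On R' ν) (h0 : ν {0} = 0)
    (hi : Integrable Real.log ν) :
    Integrable (fun z : ℝ × ℝ => Real.log (z.1 + z.2)) (μ.prod ν) := by
  haveI := hμ.fin
  haveI := hν.fin
  have hg : Integrable (fun z : ℝ × ℝ => |Real.log z.2| + (R + R')) (μ.prod ν) :=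
    (hi.abs.comp_snd μ).add (integrable_const _)
  refine hg.mono' (Real.measurable_log.comp (measurable_fst.add measurable_snd)).aestronglyMeasurable ?_
  have h1 : ∀ᵐ z ∂(μ.prod ν), z.2 ≠ 0 := by
    refine Measure.quasiMeasurePreserving_snd.ae (p := fun y => y ≠ 0) ?_
    rw [ae_iff]
    simpa using h0
  filter_upwards [ae_prod hμ hν, h1] with z hz hz0
  rw [Real.norm_eq_abs]
  exact abs_log_add_le hz.1.1 (lt_of_le_of_ne hz.2.1 (Ne.symm hz0)) (add_le_add hz.1.2 hz.2.2)

theorem integrable_log_conv (hμ : On R μ) (hν : On R' ν) (h0 : ν {0} = 0)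
    (hi : Integrable Real.log ν) : Integrable Real.log (μ.conv ν) := by
  rw [Measure.conv, integrable_map_measure Real.measurable_log.aestronglyMeasurable (by fun_prop)]
  exact integrable_log_prod hμ hν h0 hi

theorem integral_log_conv (hμ : On R μ) (hν : On R' ν) (h0 : ν {0} = 0)
    (hi : Integrable Real.log ν) :
    ∫ x, Real.log x ∂(μ.conv ν) = ∫ x, ∫ y, Real.log (x + y) ∂ν ∂μ := by
  haveI := hμ.fin
  haveI := hν.fin
  exact integral_conv (integrable_log_conv hμ hν h0 hi)

theorem integral_log_conv' (hμ : On R μ) (hν : On R' ν) (h0 : ν {0} = 0)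
    (hi : Integrable Real.log ν) :
    ∫ x, Real.log x ∂(μ.conv ν) = ∫ y, ∫ x, Real.log (x + y) ∂μ ∂ν := by
  haveI := hμ.fin
  haveI := hν.fin
  rw [integral_log_conv hμ hν h0 hi]
  exact integral_integral_swap (integrable_log_prod hμ hν h0 hi)

theorem integral_pow_conv (hμ : On R μ) (hν : On R' ν) (n : ℕ) :
    ∫ x, x ^ n ∂(μ.conv ν) = ∑ i ∈ Finset.range (n + 1),
      (n.choose i : ℝ) * (∫ x, x ^ i ∂μ) * (∫ x, x ^ (n - i) ∂ν) := by
  haveI := hμ.fin
  haveI := hν.fin
  rw [integral_conv ((On_conv hμ hν).integrable (by fun_prop))]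
  simp_rw [add_pow]
  have h1 : ∀ x : ℝ, ∫ y, ∑ m ∈ Finset.range (n + 1), x ^ m * y ^ (n - m) * (n.choose m : ℝ) ∂ν =
      ∑ m ∈ Finset.range (n + 1), x ^ m * ((n.choose m : ℝ) * ∫ y, y ^ (n - m) ∂ν) := by
    intro x
    rw [integral_finsetSum _ fun m _ => hν.integrable (by fun_prop)]
    refine Finset.sum_congr rfl fun m _ => ?_
    rw [integral_mul_const, integral_const_mul]
    ring
  simp_rw [h1]
  rw [integral_finsetSum _ fun m _ => hμ.integrable (by fun_prop)]
  refine Finset.sum_congr rfl fun m _ => ?_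
  rw [integral_mul_const]
  ring

end conv

/-! ### Alternating sums -/

theorem super_zero {R : ℝ} {P : ℕ} {μ : ℕ → Measure ℝ} (hμ : ∀ p ∈ Finset.range P, On R (μ p))
    (h : ∀ n : ℕ, ∑ p ∈ Finset.range P, (-1 : ℝ) ^ p * ∫ x, x ^ n ∂(μ p) = 0) {f : ℝ → ℝ}
    (hf : ∀ p ∈ Finset.range P, Integrable f (μ p)) :
    ∑ p ∈ Finset.range P, (-1 : ℝ) ^ p * ∫ x, f x ∂(μ p) = 0 := by
  classical
  set E := ∑ p ∈ (Finset.range P).filter (fun p => Even p), μ p with hE
  set O := ∑ p ∈ (Finset.range P).filter (fun p => ¬ Even p), μ p with hO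
  have hEon : On R E := On.sum _ fun p hp => hμ p (Finset.mem_filter.1 hp).1
  have hOon : On R O := On.sum _ fun p hp => hμ p (Finset.mem_filter.1 hp).1
  have key : ∀ g : ℝ → ℝ, (∀ p ∈ Finset.range P, Integrable g (μ p)) →
      ∑ p ∈ Finset.range P, (-1 : ℝ) ^ p * ∫ x, g x ∂(μ p) = ∫ x, g x ∂E - ∫ x, g x ∂O := by
    intro g hg
    rw [hE, hO, integral_finsetSum_measure fun p hp => hg p (Finset.mem_filter.1 hp).1,
      integral_finsetSum_measure fun p hp => hg p (Finset.mem_filter.1 hp).1,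
      ← Finset.sum_filter_add_sum_filter_not (Finset.range P) (fun p => Even p), sub_eq_add_neg,
      ← Finset.sum_neg_distrib]
    congr 1
    · refine Finset.sum_congr rfl fun p hp => ?_
      rw [(Finset.mem_filter.1 hp).2.neg_one_pow, one_mul]
    · refine Finset.sum_congr rfl fun p hp => ?_
      rw [(Nat.not_even_iff_odd.1 (Finset.mem_filter.1 hp).2).neg_one_pow, neg_one_mul]
  have hEO : E = O := by
    refine ext_of_moments hEon hOon fun n => ?_
    have h1 := key (fun x => x ^ n) fun p hp => (hμ p hp).integrable (by fun_prop)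
    rw [h n] at h1
    linarith
  rw [key f hf, hEO, sub_self]

/-- vanishing of the Euler characteristic when there are no atoms at zero -/
theorem super_mass {R : ℝ} {P : ℕ} {μ : ℕ → Measure ℝ} (hμ : ∀ p ∈ Finset.range P, On R (μ p))
    (h : ∀ n : ℕ, 1 ≤ n → ∑ p ∈ Finset.range P, (-1 : ℝ) ^ p * ∫ x, x ^ n ∂(μ p) = 0)
    (h0 : ∀ p ∈ Finset.range P, μ p {0} = 0) :
    ∑ p ∈ Finset.range P, (-1 : ℝ) ^ p * ∫ x, x ^ 0 ∂(μ p) = 0 := by
  classical
  set E := ∑ p ∈ (Finset.range P).filter (fun p => Even p), μ p with hE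
  set O := ∑ p ∈ (Finset.range P).filter (fun p => ¬ Even p), μ p with hO
  have hEon : On R E := On.sum _ fun p hp => hμ p (Finset.mem_filter.1 hp).1
  have hOon : On R O := On.sum _ fun p hp => hμ p (Finset.mem_filter.1 hp).1
  haveI := hEon.fin
  haveI := hOon.fin
  have key : ∀ g : ℝ → ℝ, Continuous g →
      ∑ p ∈ Finset.range P, (-1 : ℝ) ^ p * ∫ x, g x ∂(μ p) = ∫ x, g x ∂E - ∫ x, g x ∂O := by
    intro g hg
    rw [hE, hO, integral_finsetSum_measure
        fun p hp => (hμ p (Finset.mem_filter.1 hp).1).integrable hg,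
      integral_finsetSum_measure fun p hp => (hμ p (Finset.mem_filter.1 hp).1).integrable hg,
      ← Finset.sum_filter_add_sum_filter_not (Finset.range P) (fun p => Even p), sub_eq_add_neg,
      ← Finset.sum_neg_distrib]
    congr 1
    · refine Finset.sum_congr rfl fun p hp => ?_
      rw [(Finset.mem_filter.1 hp).2.neg_one_pow, one_mul]
    · refine Finset.sum_congr rfl fun p hp => ?_
      rw [(Nat.not_even_iff_odd.1 (Finset.mem_filter.1 hp).2).neg_one_pow, neg_one_mul]
  have hE0 : E {0} = 0 := by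
    rw [hE, Measure.finsetSum_apply]
    exact Finset.sum_eq_zero fun p hp => h0 p (Finset.mem_filter.1 hp).1
  have hO0 : O {0} = 0 := by
    rw [hO, Measure.finsetSum_apply]
    exact Finset.sum_eq_zero fun p hp => h0 p (Finset.mem_filter.1 hp).1
  have hd : On (max R 0) (Measure.dirac (0 : ℝ)) := by
    refine ⟨inferInstance, ?_⟩
    rw [Measure.dirac_apply' _ measurableSet_Icc.compl]
    simp
  have h1 : E + O univ • Measure.dirac (0 : ℝ) = O + E univ • Measure.dirac (0 : ℝ) := by
    refine ext_of_moments (R := max R 0)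
      ((hEon.mono (le_max_left _ _)).add (hd.smul (measure_ne_top O _)))
      ((hOon.mono (le_max_left _ _)).add (hd.smul (measure_ne_top E _))) fun n => ?_
    have hi : ∀ μ' : Measure ℝ, On (max R 0) μ' → Integrable (fun x : ℝ => x ^ n) μ' :=
      fun μ' h' => h'.integrable (by fun_prop)
    rw [integral_add_measure (hi _ (hEon.mono (le_max_left _ _)))
        (hi _ (hd.smul (measure_ne_top O _))),
      integral_add_measure (hi _ (hOon.mono (le_max_left _ _)))
        (hi _ (hd.smul (measure_ne_top E _))),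
      integral_smul_measure, integral_smul_measure, integral_dirac]
    rcases Nat.eq_zero_or_pos n with hn | hn
    · subst hn
      simp only [pow_zero, integral_const, smul_eq_mul, mul_one]
      simp only [Measure.real]
      ring
    · have h2 := h n hn
      rw [key _ (by fun_prop)] at h2
      rw [zero_pow (by omega), smul_zero, smul_zero, add_zero, add_zero]
      linarith
  have h2 := congrArg (fun m : Measure ℝ => m {0}) h1
  simp only [Measure.add_apply, Measure.smul_apply, hE0, hO0, smul_eq_mul, zero_add,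
    Measure.dirac_apply_of_mem (Set.mem_singleton (0 : ℝ)), mul_one] at h2
  rw [key _ (by fun_prop)]
  simp only [pow_zero, integral_const, smul_eq_mul, mul_one, Measure.real]
  rw [h2, sub_self]

/-! ### Spectral measures of tensor products -/

/-- the family of spectral measures of a tensor product -/
noncomputable def convFam (μ ν : ℕ → Measure ℝ) (k : ℕ) : Measure ℝ :=
  ∑ p ∈ Finset.range (k + 1), (μ p).conv (ν (k - p))

section spectral

variable {Γ Γ1 Γ2 : Type} [Group Γ] [Group Γ1] [Group Γ2]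

theorem family_on {μ : ℕ → Measure ℝ} (h : ∀ k, ∃ R, On R (μ k)) (P : ℕ) :
    ∃ R, 0 ≤ R ∧ ∀ p < P, On R (μ p) := by
  choose r hr using h
  refine ⟨∑ p ∈ Finset.range P, |r p|, Finset.sum_nonneg fun _ _ => abs_nonneg _, fun p hp => ?_⟩
  refine (hr p).mono ((le_abs_self _).trans ?_)
  exact Finset.single_le_sum (f := fun p => |r p|) (fun _ _ => abs_nonneg _)
    (Finset.mem_range.2 hp)

theorem convFam_on {μ ν : ℕ → Measure ℝ} (hμ : ∀ k, ∃ R, On R (μ k)) (hν : ∀ k, ∃ R, On R (ν k))
    (k : ℕ) : ∃ R, On R (convFam μ ν k) := by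
  obtain ⟨R, -, hR⟩ := family_on hμ (k + 1)
  obtain ⟨R', -, hR'⟩ := family_on hν (k + 1)
  refine ⟨R + R', On.sum _ fun p hp => On_conv (hR p ?_) (hR' (k - p) ?_)⟩
  · exact Finset.mem_range.1 hp
  · have := Finset.mem_range.1 hp
    omega

theorem spectral_xtens {C1 : BCx (GR Γ1)} {C2 : BCx (GR Γ2)} {μ ν : ℕ → Measure ℝ}
    (hμ : ∀ k, C1.IsSpectral k (μ k)) (hν : ∀ k, C2.IsSpectral k (ν k)) (k : ℕ) :
    (C1.xtens C2).IsSpectral k (convFam μ ν k) := by
  obtain ⟨R, hR⟩ := convFam_on (fun k => isSpectral_on (hμ k)) (fun k => isSpectral_on (hν k)) k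
  refine ⟨hR.fin, ⟨R, hR.supp⟩, fun n => ?_⟩
  have hi : ∀ p ∈ Finset.range (k + 1), Integrable (fun x : ℝ => x ^ n) ((μ p).conv (ν (k - p))) := by
    intro p _
    obtain ⟨R1, h1⟩ := isSpectral_on (hμ p)
    obtain ⟨R2, h2⟩ := isSpectral_on (hν (k - p))
    exact (On_conv h1 h2).integrable (by fun_prop)
  rw [convFam, integral_finsetSum_measure hi, trk_xtens]
  push_cast
  refine Finset.sum_congr rfl fun p _ => ?_
  obtain ⟨R1, h1⟩ := isSpectral_on (hμ p)
  obtain ⟨R2, h2⟩ := isSpectral_on (hν (k - p))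
  rw [integral_pow_conv h1 h2]
  refine Finset.sum_congr rfl fun i _ => ?_
  rw [(hμ p).moment i, (hν (k - p)).moment (n - i)]

theorem convFam_zero {μ ν : ℕ → Measure ℝ} (hμ : ∀ k, ∃ R, On R (μ k)) (hν : ∀ k, ∃ R, On R (ν k))
    (h0 : ∀ q, ν q {0} = 0) (k : ℕ) : convFam μ ν k {0} = 0 := by
  rw [convFam, Measure.finsetSum_apply]
  refine Finset.sum_eq_zero fun p _ => ?_
  obtain ⟨R1, h1⟩ := hμ p
  obtain ⟨R2, h2⟩ := hν (k - p)
  exact conv_zero_atom h1 h2 (h0 _)

theorem convFam_log {μ ν : ℕ → Measure ℝ} (hμ : ∀ k, ∃ R, On R (μ k)) (hν : ∀ k, ∃ R, On R (ν k))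
    (h0 : ∀ q, ν q {0} = 0) (hl : ∀ q, IntegrableOn Real.log (Ioi 0) (ν q)) (k : ℕ) :
    IntegrableOn Real.log (Ioi 0) (convFam μ ν k) := by
  obtain ⟨R, hR⟩ := convFam_on hμ hν k
  rw [integrableOn_log hR, convFam, integrable_finsetSum_measure]
  intro p _
  obtain ⟨R1, h1⟩ := hμ p
  obtain ⟨R2, h2⟩ := hν (k - p)
  exact integrable_log_conv h1 h2 (h0 _) ((integrableOn_log h2).1 (hl _))

theorem spectral_zero {C : BCx (GR Γ)} {k : ℕ} {μ : Measure ℝ} (h : C.IsSpectral k μ)
    (hk : ∀ s, C.deg s ≠ k) : μ = 0 := by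
  haveI := h.finite
  have h1 := h.moment 0
  have h2 : C.trk k (C.Lap ^ 0) = 0 := by
    unfold BCx.trk
    exact Finset.sum_eq_zero fun s _ => if_neg (hk s)
  rw [h2] at h1
  simp only [pow_zero, integral_const, smul_eq_mul, mul_one, Int.cast_zero] at h1
  exact Measure.measure_univ_eq_zero.1 ((measureReal_eq_zero_iff).1 h1)

theorem sum_trk (C : BCx (GR Γ)) {P : ℕ} (hP : ∀ s, C.deg s < P) (A : Matrix C.S C.S (GR Γ)) :
    ∑ p ∈ Finset.range P, (-1 : ℤ) ^ p * C.trk p A =
      ∑ s : C.S, (-1 : ℤ) ^ C.deg s * (A s s).coeff 1 := by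
  unfold BCx.trk
  simp_rw [Finset.mul_sum]
  rw [Finset.sum_comm]
  refine Finset.sum_congr rfl fun s _ => ?_
  rw [Finset.sum_eq_single (C.deg s)]
  · rw [if_pos rfl]
  · intro p _ hp
    rw [if_neg (Ne.symm hp), mul_zero]
  · intro h
    exact absurd (Finset.mem_range.2 (hP s)) h

theorem super_moment {C : BCx (GR Γ)} {μ : ℕ → Measure ℝ} (hμ : ∀ k, C.IsSpectral k (μ k)) {P : ℕ}
    (hP : ∀ s, C.deg s < P) (n : ℕ) :
    ∑ p ∈ Finset.range P, (-1 : ℝ) ^ p * ∫ x, x ^ n ∂(μ p) =
      ((∑ s : C.S, (-1 : ℤ) ^ C.deg s * ((C.Lap ^ n) s s).coeff 1 : ℤ) : ℝ) := by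
  rw [← sum_trk C hP]
  push_cast
  exact Finset.sum_congr rfl fun p _ => by rw [(hμ p).moment n]

/-- **L2-torsion of a product vanishes**: one factor has Euler characteristic zero, the other one
is L2-acyclic with integrable logarithm. -/
theorem rho_xtens_zero {C1 : BCx (GR Γ1)} {C2 : BCx (GR Γ2)} {μ ν : ℕ → Measure ℝ}
    (hμ : ∀ k, C1.IsSpectral k (μ k)) (hν : ∀ k, C2.IsSpectral k (ν k))
    (hχ : ∑ s : C1.S, (-1 : ℤ) ^ C1.deg s = 0) (h0 : ∀ q, ν q {0} = 0)
    (hl : ∀ q, IntegrableOn Real.log (Ioi 0) (ν q)) :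
    (C1.xtens C2).rho (convFam μ ν) = 0 := by
  classical
  set P := Finset.univ.sup C1.deg + 1 with hP
  set Q := Finset.univ.sup C2.deg + 1 with hQ
  have hP' : ∀ s, C1.deg s < P := fun s =>
    Nat.lt_succ_of_le (Finset.le_sup (f := C1.deg) (Finset.mem_univ s))
  have hQ' : ∀ s, C2.deg s < Q := fun s =>
    Nat.lt_succ_of_le (Finset.le_sup (f := C2.deg) (Finset.mem_univ s))
  have hμon := fun k => isSpectral_on (hμ k)
  have hνon := fun k => isSpectral_on (hν k)
  obtain ⟨R, hR0, hR⟩ := family_on hμon P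
  obtain ⟨R', hR'0, hR'⟩ := family_on hνon Q
  have hμz : ∀ p, P ≤ p → μ p = 0 := fun p hp =>
    spectral_zero (hμ p) fun s => by have := hP' s; omega
  have hνz : ∀ q, Q ≤ q → ν q = 0 := fun q hq =>
    spectral_zero (hν q) fun s => by have := hQ' s; omega
  have hlog : ∀ q, Integrable Real.log (ν q) := fun q => by
    obtain ⟨R2, h2⟩ := hνon q
    exact (integrableOn_log h2).1 (hl q)
  -- the numbers `L p q`
  set L : ℕ → ℕ → ℝ := fun p q => ∫ x, Real.log x ∂((μ p).conv (ν q)) with hL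
  have hLz : ∀ p q, P ≤ p ∨ Q ≤ q → L p q = 0 := by
    intro p q h
    rcases h with h | h
    · simp only [hL, hμz p h, Measure.zero_conv, integral_zero_measure]
    · simp only [hL, hνz q h, Measure.conv_zero, integral_zero_measure]
  have hint : ∀ j, ∫ x in Ioi (0 : ℝ), Real.log x ∂(convFam μ ν j) =
      ∑ p ∈ Finset.range (j + 1), L p (j - p) := by
    intro j
    obtain ⟨R3, h3⟩ := convFam_on hμon hνon j
    rw [h3.integral_log, convFam, integral_finsetSum_measure]
    intro p _
    obtain ⟨R1, h1⟩ := hμon p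
    obtain ⟨R2, h2⟩ := hνon (j - p)
    exact integrable_log_conv h1 h2 (h0 _) (hlog _)
  -- the bracket sums vanish
  have hA : ∀ q, ∑ p ∈ Finset.range P, (-1 : ℝ) ^ p * L p q = 0 := by
    intro q
    obtain ⟨R2, h2⟩ := hνon q
    haveI := h2.fin
    have e1 : ∑ p ∈ Finset.range P, (-1 : ℝ) ^ p * L p q =
        ∫ y, ∑ p ∈ Finset.range P, (-1 : ℝ) ^ p * ∫ x, Real.log (x + y) ∂(μ p) ∂(ν q) := by
      rw [integral_finsetSum]
      · refine Finset.sum_congr rfl fun p hp => ?_
        have h1 := hR p (Finset.mem_range.1 hp)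
        rw [integral_const_mul, ← integral_log_conv' h1 h2 (h0 _) (hlog _)]
      · intro p hp
        have h1 := hR p (Finset.mem_range.1 hp)
        haveI := h1.fin
        exact (integrable_log_prod h1 h2 (h0 _) (hlog _)).integral_prod_right.const_mul _
    rw [e1]
    have e2 : ∀ᵐ y ∂(ν q), y ≠ 0 := by
      rw [ae_iff]
      simpa using h0 q
    refine integral_eq_zero_of_ae ?_
    filter_upwards [h2.ae, e2] with y hy hy0
    have hypos : 0 < y := lt_of_le_of_ne hy.1 (Ne.symm hy0)
    refine super_zero (R := R) (fun p hp => hR p (Finset.mem_range.1 hp)) (fun n => ?_)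
      (f := fun x => Real.log (x + y)) fun p hp => ?_
    · rw [super_moment hμ hP' n]
      rcases Nat.eq_zero_or_pos n with hn | hn
      · subst hn
        have h3 : ∑ s : C1.S, (-1 : ℤ) ^ C1.deg s * ((C1.Lap ^ 0) s s).coeff 1 =
            ∑ s : C1.S, (-1 : ℤ) ^ C1.deg s := by
          refine Finset.sum_congr rfl fun s _ => ?_
          rw [pow_zero, Matrix.one_apply_eq, MonoidAlgebra.one_def, MonoidAlgebra.coeff_single,
            Finsupp.single_eq_same, mul_one]
        rw [h3, hχ, Int.cast_zero]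
      · rw [mckean C1 n hn, Int.cast_zero]
    · have h1 := hR p (Finset.mem_range.1 hp)
      haveI := h1.fin
      refine Integrable.mono' (integrable_const (|Real.log y| + (R + y)))
        (Real.measurable_log.comp (measurable_id.add_const y)).aestronglyMeasurable
        (h1.ae.mono fun x hx => ?_)
      rw [Real.norm_eq_abs]
      exact abs_log_add_le hx.1 hypos (by linarith [hx.2])
  have hB : ∀ p, ∑ q ∈ Finset.range Q, (-1 : ℝ) ^ q * L p q = 0 := by
    intro p
    obtain ⟨R1, h1⟩ := hμon p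
    haveI := h1.fin
    have e1 : ∑ q ∈ Finset.range Q, (-1 : ℝ) ^ q * L p q =
        ∫ x, ∑ q ∈ Finset.range Q, (-1 : ℝ) ^ q * ∫ y, Real.log (x + y) ∂(ν q) ∂(μ p) := by
      rw [integral_finsetSum]
      · refine Finset.sum_congr rfl fun q hq => ?_
        have h2 := hR' q (Finset.mem_range.1 hq)
        rw [integral_const_mul, ← integral_log_conv h1 h2 (h0 _) (hlog _)]
      · intro q hq
        have h2 := hR' q (Finset.mem_range.1 hq)
        haveI := h2.fin
        exact (integrable_log_prod h1 h2 (h0 _) (hlog _)).integral_prod_left.const_mul _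
    rw [e1]
    refine integral_eq_zero_of_ae ?_
    filter_upwards [h1.ae] with x hx
    refine super_zero (R := R') (fun q hq => hR' q (Finset.mem_range.1 hq)) (fun n => ?_)
      (f := fun y => Real.log (x + y)) fun q hq => ?_
    · have hm : ∀ n : ℕ, 1 ≤ n → ∑ p ∈ Finset.range Q, (-1 : ℝ) ^ p * ∫ x, x ^ n ∂(ν p) = 0 := by
        intro n hn
        rw [super_moment hν hQ' n, mckean C2 n hn, Int.cast_zero]
      rcases Nat.eq_zero_or_pos n with hn | hn
      · subst hn
        exact super_mass (R := R') (fun q hq => hR' q (Finset.mem_range.1 hq)) hm fun q _ => h0 q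
      · exact hm n hn
    · have h2 := hR' q (Finset.mem_range.1 hq)
      haveI := h2.fin
      refine Integrable.mono' ((hlog q).abs.add (integrable_const (R' + x)))
        (Real.measurable_log.comp (measurable_id.const_add x)).aestronglyMeasurable ?_
      have e2 : ∀ᵐ y ∂(ν q), y ≠ 0 := by
        rw [ae_iff]
        simpa using h0 q
      filter_upwards [h2.ae, e2] with y hy hy0
      rw [Real.norm_eq_abs]
      exact abs_log_add_le hx.1 (lt_of_le_of_ne hy.1 (Ne.symm hy0)) (by linarith [hy.2])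
  -- reorganise the sum
  have hsup : ∀ j, P + Q ≤ j → ∑ p ∈ Finset.range (j + 1), L p (j - p) = 0 := by
    intro j hj
    refine Finset.sum_eq_zero fun p hp => hLz _ _ ?_
    have := Finset.mem_range.1 hp
    omega
  unfold BCx.rho
  rw [mul_eq_zero]
  right
  simp_rw [hint]
  set J := Finset.univ.sup (C1.xtens C2).deg + 1 with hJ
  -- terms beyond `J` vanish as the measures vanish there
  have hJz : ∀ j, J ≤ j → ∑ p ∈ Finset.range (j + 1), L p (j - p) = 0 := by
    intro j hj
    rw [← hint j]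
    have h1 : convFam μ ν j = 0 := spectral_zero (spectral_xtens hμ hν j) fun s => by
      have h2 : (C1.xtens C2).deg s < J :=
        Nat.lt_succ_of_le (Finset.le_sup (f := (C1.xtens C2).deg) (Finset.mem_univ s))
      omega
    rw [h1]
    simp
  have hext : ∑ j ∈ Finset.range J, (-1 : ℝ) ^ j * (j : ℝ) * ∑ p ∈ Finset.range (j + 1), L p (j - p) =
      ∑ j ∈ Finset.range (max J (P + Q)),
        (-1 : ℝ) ^ j * (j : ℝ) * ∑ p ∈ Finset.range (j + 1), L p (j - p) := by
    refine Finset.sum_subset (Finset.range_subset_range.2 (le_max_left _ _)) fun j _ hj => ?_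
    rw [hJz j (by simpa using hj), mul_zero]
  have hext2 : ∑ j ∈ Finset.range (P + Q), (-1 : ℝ) ^ j * (j : ℝ) * ∑ p ∈ Finset.range (j + 1), L p (j - p) =
      ∑ j ∈ Finset.range (max J (P + Q)),
        (-1 : ℝ) ^ j * (j : ℝ) * ∑ p ∈ Finset.range (j + 1), L p (j - p) := by
    refine Finset.sum_subset (Finset.range_subset_range.2 (le_max_right _ _)) fun j _ hj => ?_
    rw [hsup j (by simpa using hj), mul_zero]
  rw [hext, ← hext2]
  have hre : ∑ j ∈ Finset.range (P + Q),
      (-1 : ℝ) ^ j * (j : ℝ) * ∑ p ∈ Finset.range (j + 1), L p (j - p) =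
      ∑ p ∈ Finset.range P, ∑ q ∈ Finset.range Q,
        (-1 : ℝ) ^ (p + q) * ((p : ℝ) + (q : ℝ)) * L p q := by
    rw [← Finset.sum_product', ← Finset.sum_fiberwise_of_maps_to
      (g := fun z : ℕ × ℕ => z.1 + z.2) (t := Finset.range (P + Q)) (fun z hz => by
        have h1 := Finset.mem_range.1 (Finset.mem_product.1 hz).1
        have h2 := Finset.mem_range.1 (Finset.mem_product.1 hz).2
        exact Finset.mem_range.2 (by omega))]
    refine Finset.sum_congr rfl fun j _ => ?_
    rw [← Finset.Nat.sum_antidiagonal_eq_sum_range_succ (fun p q => L p q) j, Finset.mul_sum]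
    symm
    refine Finset.sum_subset_zero_on_sdiff (fun z hz => ?_) (fun z hz => ?_) fun z hz => ?_
    · rw [Finset.mem_filter] at hz
      exact Finset.HasAntidiagonal.mem_antidiagonal.2 hz.2
    · rw [Finset.mem_sdiff, Finset.HasAntidiagonal.mem_antidiagonal, Finset.mem_filter, Finset.mem_product,
        Finset.mem_range, Finset.mem_range] at hz
      rw [hLz z.1 z.2 (by
        by_contra hc
        push Not at hc
        exact hz.2 ⟨hc, hz.1⟩), mul_zero]
    · rw [Finset.mem_filter] at hz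
      rw [← hz.2]
      push_cast
      ring
  rw [hre]
  have hsplit : ∑ p ∈ Finset.range P, ∑ q ∈ Finset.range Q,
        (-1 : ℝ) ^ (p + q) * ((p : ℝ) + (q : ℝ)) * L p q =
      ∑ p ∈ Finset.range P, (-1 : ℝ) ^ p * p * (∑ q ∈ Finset.range Q, (-1 : ℝ) ^ q * L p q) +
      ∑ q ∈ Finset.range Q, (-1 : ℝ) ^ q * q * (∑ p ∈ Finset.range P, (-1 : ℝ) ^ p * L p q) := by
    simp_rw [Finset.mul_sum]
    rw [Finset.sum_comm (s := Finset.range Q) (t := Finset.range P), ← Finset.sum_add_distrib]
    refine Finset.sum_congr rfl fun p _ => ?_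
    rw [← Finset.sum_add_distrib]
    refine Finset.sum_congr rfl fun q _ => ?_
    rw [pow_add]
    ring
  rw [hsplit]
  simp [hA, hB]

end spectral

end Pool.H29.L2
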