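import Pool.Agent.H29.L2.Hodge

/-!
Group ring complexes: spectral measures of finite covers, existence of the spectral measure,
Lueck approximation.
-/

set_option autoImplicit false
set_option linter.style.haveILetI false

open MeasureTheory Filter Topology Set
open scoped ENNReal NNReal

namespace Pool.H29.L2

open Pool.H3.L2 Pool.H29.Mom

variable {Γ : Type} [Group Γ]

theorem coeff_mapDomain_adj {Q : Type} [Group Q] (φ : Γ →* Q) (a : GR Γ) (q : Q) :
    (MonoidAlgebra.mapDomain φ (adj a)).coeff q = (MonoidAlgebra.mapDomain φ a).coeff q⁻¹ := by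
  classical
  unfold adj
  induction a using MonoidAlgebra.induction_linear with
  | zero => simp
  | add x y hx hy =>
    rw [MonoidAlgebra.mapDomain_add, MonoidAlgebra.mapDomain_add, MonoidAlgebra.mapDomain_add,
      MonoidAlgebra.coeff_add, MonoidAlgebra.coeff_add, Finsupp.add_apply, Finsupp.add_apply,
      hx, hy]
  | single g r =>
    rw [MonoidAlgebra.mapDomain_single, MonoidAlgebra.mapDomain_single,
      MonoidAlgebra.mapDomain_single, map_inv]
    rw [MonoidAlgebra.coeff_single, MonoidAlgebra.coeff_single, Finsupp.single_apply,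
      Finsupp.single_apply]
    by_cases h : (φ g)⁻¹ = q
    · rw [if_pos h, if_pos (by rw [← h, inv_inv])]
    · rw [if_neg h, if_neg fun h' => h (by rw [h', inv_inv])]

theorem regM_adj {S T Q : Type} [Group Q] (φ : Γ →* Q) (A : Matrix S T (GR Γ)) :
    regM φ (adjM A) = (regM φ A).transpose := by
  ext ⟨s, x⟩ ⟨t, y⟩
  simp only [regM, adjM, Matrix.of_apply, Matrix.transpose_apply]
  rw [coeff_mapDomain_adj]
  congr 1
  group

theorem regM_add {S T Q : Type} [Group Q] (φ : Γ →* Q) (A B : Matrix S T (GR Γ)) :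
    regM φ (A + B) = regM φ A + regM φ B := by
  ext ⟨s, x⟩ ⟨t, y⟩
  simp [regM, MonoidAlgebra.mapDomain_add]

theorem regM_one {S Q : Type} [DecidableEq S] [Group Q] [DecidableEq Q] (φ : Γ →* Q) :
    regM φ (1 : Matrix S S (GR Γ)) = 1 := by
  ext ⟨s, x⟩ ⟨t, y⟩
  simp only [regM, Matrix.of_apply, Matrix.one_apply, Prod.mk.injEq]
  by_cases h : s = t
  · subst h
    simp only [if_true, true_and]
    rw [MonoidAlgebra.one_def, MonoidAlgebra.mapDomain_single, MonoidAlgebra.coeff_single,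
      Finsupp.single_apply, map_one]
    by_cases h' : x = y
    · subst h'
      simp
    · rw [if_neg h', if_neg]
      intro hc
      exact h' (inv_mul_eq_one.1 hc.symm)
  · simp [h]

theorem regM_pow {S Q : Type} [Fintype S] [DecidableEq S] [Group Q] [Fintype Q] [DecidableEq Q]
    (φ : Γ →* Q) (A : Matrix S S (GR Γ)) (n : ℕ) : regM φ (A ^ n) = (regM φ A) ^ n := by
  induction n with
  | zero => rw [pow_zero, pow_zero, regM_one]
  | succ n ih => rw [pow_succ, pow_succ, regM_mul, ih]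

section quot

variable {Q : Type} [Group Q] [Fintype Q] [DecidableEq Q]

theorem lapZ_quot (C : BCx (GR Γ)) (φ : Γ →* Q) : lapZ (C.quot φ) = regM φ C.Lap := by
  unfold BCx.Lap
  rw [regM_add, regM_mul, regM_mul, regM_adj]
  rfl

theorem trace_quot (C : BCx (GR Γ)) (φ : Γ →* Q) (k n : ℕ) :
    ((lapZk (C.quot φ) k) ^ n).trace = (Fintype.card Q : ℤ) *
      ∑ s : C.S, if C.deg s = k then (MonoidAlgebra.mapDomain φ ((C.Lap ^ n) s s)).coeff 1 else 0 := by
  rw [trace_lapZk]
  have h1 : (lapZ (C.quot φ)) ^ n = regM φ (C.Lap ^ n) := by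
    rw [lapZ_quot, regM_pow]
    rfl
  rw [h1]
  have h2 : ∑ u : (C.quot φ).S, (if (C.quot φ).deg u = k then regM φ (C.Lap ^ n) u u else 0) =
      ∑ u : C.S × Q, (if C.deg u.1 = k then
        (MonoidAlgebra.mapDomain φ ((C.Lap ^ n) u.1 u.1)).coeff 1 else 0) := by
    refine Finset.sum_congr rfl fun u _ => ?_
    have h3 : regM φ (C.Lap ^ n) u u = (MonoidAlgebra.mapDomain φ ((C.Lap ^ n) u.1 u.1)).coeff 1 := by
      simp [regM]
    rw [h3]
    rfl
  rw [h2, Fintype.sum_prod_type, Finset.mul_sum]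
  refine Finset.sum_congr rfl fun s _ => ?_
  simp

end quot

theorem exists_l1 (a : GR Γ) : ∃ c : ℝ, ∀ (Q : Type) [Group Q] [Fintype Q] (φ : Γ →* Q),
    ∑ q : Q, |(((MonoidAlgebra.mapDomain φ a).coeff q : ℤ) : ℝ)| ≤ c := by
  classical
  induction a using MonoidAlgebra.induction_linear with
  | zero => exact ⟨0, fun Q _ _ φ => by simp⟩
  | add x y hx hy =>
    obtain ⟨c, hc⟩ := hx
    obtain ⟨d, hd⟩ := hy
    refine ⟨c + d, fun Q _ _ φ => ?_⟩
    refine le_trans ?_ (add_le_add (hc Q φ) (hd Q φ))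
    rw [← Finset.sum_add_distrib]
    refine Finset.sum_le_sum fun q _ => ?_
    rw [MonoidAlgebra.mapDomain_add, MonoidAlgebra.coeff_add, Finsupp.add_apply, Int.cast_add]
    exact abs_add_le _ _
  | single g r =>
    refine ⟨|(r : ℝ)|, fun Q _ _ φ => ?_⟩
    rw [MonoidAlgebra.mapDomain_single, MonoidAlgebra.coeff_single]
    rw [Finset.sum_eq_single (φ g)]
    · simp
    · intro q _ hq
      rw [Finsupp.single_apply, if_neg (Ne.symm hq)]
      simp
    · simp

theorem exists_R (C : BCx (GR Γ)) : ∃ R : ℝ, ∀ (Q : Type) [Group Q] [Fintype Q] (φ : Γ →* Q)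
    (u : C.S × Q), ∑ v : C.S × Q, |((regM φ C.Lap u v : ℤ) : ℝ)| ≤ R := by
  classical
  choose c hc using fun s t => exists_l1 (C.Lap s t)
  have hc0 : ∀ s t, 0 ≤ c s t := fun s t =>
    le_trans (Finset.sum_nonneg fun _ _ => abs_nonneg _) (hc s t Unit 1)
  refine ⟨∑ s, ∑ t, c s t, fun Q _ _ φ u => ?_⟩
  rw [Fintype.sum_prod_type]
  refine le_trans (Finset.sum_le_sum (g := fun t => c u.1 t) fun t _ => ?_) ?_
  · refine le_trans (le_of_eq ?_) (hc u.1 t Q φ)
    refine Fintype.sum_equiv (Equiv.mulLeft u.2⁻¹) _ _ fun y => ?_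
    simp [regM]
  · exact Finset.single_le_sum (f := fun s => ∑ t, c s t)
      (fun s _ => Finset.sum_nonneg fun t _ => hc0 s t) (Finset.mem_univ u.1)

/-- the spectral measure of a finite cover -/
theorem cover_meas (C : BCx (GR Γ)) (k : ℕ) {R : ℝ}
    (hR : ∀ (Q : Type) [Group Q] [Fintype Q] (φ : Γ →* Q)
      (u : C.S × Q), ∑ v : C.S × Q, |((regM φ C.Lap u v : ℤ) : ℝ)| ≤ R)
    (N : Subgroup Γ) [N.Normal] [N.FiniteIndex] :
    ∃ μ : Measure ℝ, On R μ ∧
      (∀ n, ∫ x, x ^ n ∂μ = ((∑ s : C.S, if C.deg s = k then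
        (MonoidAlgebra.mapDomain (QuotientGroup.mk' N) ((C.Lap ^ n) s s)).coeff 1 else 0 : ℤ) : ℝ)) ∧
      Integrable Real.log μ ∧ 0 ≤ ∫ x, Real.log x ∂μ ∧
      μ.real {0} ≤ ((C.cover N).betti ℝ k : ℝ) / (N.index : ℝ) := by
  letI : Fintype (Γ ⧸ N) := Fintype.ofFinite _
  letI : DecidableEq (Γ ⧸ N) := Classical.decEq _
  set φ := QuotientGroup.mk' N with hφ
  have hcard : (Fintype.card (Γ ⧸ N) : ℝ) ≠ 0 := by
    exact_mod_cast Fintype.card_ne_zero
  have hidx : (N.index : ℝ) = (Fintype.card (Γ ⧸ N) : ℝ) := by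
    rw [Subgroup.index, Nat.card_eq_fintype_card]
  obtain ⟨μ, h1, h2, h3, h4, h5⟩ := exists_meas (lapZk (C.quot φ) k) (lapZk_psd (C.quot φ) k)
    (R := R) (fun u => by
      refine le_trans ?_ (hR (Γ ⧸ N) φ u.1)
      have h6 : ∑ v : {v : (C.quot φ).S // (C.quot φ).deg v = k},
          |((lapZk (C.quot φ) k u v : ℤ) : ℝ)| =
          ∑ v ∈ Finset.univ.filter (fun v : (C.quot φ).S => (C.quot φ).deg v = k),
            |((regM φ C.Lap u.1 v : ℤ) : ℝ)| := by
        rw [Finset.sum_subtype (Finset.univ.filter fun v => (C.quot φ).deg v = k)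
          (p := fun v => (C.quot φ).deg v = k) (fun x => by simp)]
        refine Finset.sum_congr rfl fun v _ => ?_
        rw [lapZk, Matrix.submatrix_apply, lapZ_quot]
      rw [h6]
      exact Finset.sum_le_sum_of_subset_of_nonneg (Finset.filter_subset _ _)
        fun _ _ _ => abs_nonneg _)
    (c := ((Fintype.card (Γ ⧸ N) : ℝ))⁻¹) (by positivity)
  refine ⟨μ, h1, fun n => ?_, h3, h4, ?_⟩
  · rw [h2 n, trace_quot]
    push_cast
    rw [← mul_assoc, inv_mul_cancel₀ hcard, one_mul]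
  · rw [h5, hidx, div_eq_inv_mul]
    refine mul_le_mul_of_nonneg_left ?_ (by positivity)
    exact_mod_cast finrank_ker_le (C.quot φ) k

/-- eventually the coefficient at one is unchanged -/
theorem eventually_coeff (c : ResChain Γ) (a : GR Γ) :
    ∀ᶠ i in atTop, (MonoidAlgebra.mapDomain (QuotientGroup.mk' (c.N i)) a).coeff 1 = a.coeff 1 := by
  classical
  induction a using MonoidAlgebra.induction_linear with
  | zero => exact Eventually.of_forall fun i => by simp
  | add x y hx hy =>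
    filter_upwards [hx, hy] with i h1 h2
    rw [MonoidAlgebra.mapDomain_add, MonoidAlgebra.coeff_add, Finsupp.add_apply, h1, h2,
      MonoidAlgebra.coeff_add, Finsupp.add_apply]
  | single g r =>
    by_cases hg : g = 1
    · subst hg
      refine Eventually.of_forall fun i => ?_
      rw [MonoidAlgebra.mapDomain_single, MonoidAlgebra.coeff_single,
        MonoidAlgebra.coeff_single, Finsupp.single_apply, Finsupp.single_apply, if_pos rfl]
      exact if_pos (map_one (QuotientGroup.mk' (c.N i)))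
    · have h1 : ∃ i, g ∉ c.N i := by
        by_contra hc
        push Not at hc
        have h2 : g ∈ ⨅ i, c.N i := Subgroup.mem_iInf.2 hc
        rw [c.inf] at h2
        exact hg (Subgroup.mem_bot.1 h2)
      obtain ⟨i0, hi0⟩ := h1
      filter_upwards [eventually_ge_atTop i0] with i hi
      have h2 : g ∉ c.N i := fun h => hi0 (c.anti.antitone hi h)
      rw [MonoidAlgebra.mapDomain_single, MonoidAlgebra.coeff_single, MonoidAlgebra.coeff_single,
        Finsupp.single_apply, Finsupp.single_apply, if_neg hg, if_neg]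
      intro hc
      exact h2 ((QuotientGroup.eq_one_iff g).1 hc)

theorem eventually_moment (C : BCx (GR Γ)) (c : ResChain Γ) (k n : ℕ) :
    ∀ᶠ i in atTop, (∑ s : C.S, if C.deg s = k then
        (MonoidAlgebra.mapDomain (QuotientGroup.mk' (c.N i)) ((C.Lap ^ n) s s)).coeff 1 else 0) =
      C.trk k (C.Lap ^ n) := by
  have h1 : ∀ s : C.S, ∀ᶠ i in atTop,
      (MonoidAlgebra.mapDomain (QuotientGroup.mk' (c.N i)) ((C.Lap ^ n) s s)).coeff 1 =
        ((C.Lap ^ n) s s).coeff 1 := fun s => eventually_coeff c _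
  filter_upwards [eventually_all.2 h1] with i hi
  unfold BCx.trk
  exact Finset.sum_congr rfl fun s _ => by rw [hi s]

/-- the sequence of spectral measures of the covers along a residual chain -/
theorem exists_seq (C : BCx (GR Γ)) (c : ResChain Γ) (k : ℕ) :
    ∃ (R : ℝ) (μ : ℕ → Measure ℝ), (∀ i, On R (μ i)) ∧
      (∀ n, Tendsto (fun i => ∫ x, x ^ n ∂(μ i)) atTop (𝓝 ((C.trk k (C.Lap ^ n) : ℤ) : ℝ))) ∧
      (∀ i, Integrable Real.log (μ i)) ∧ (∀ i, 0 ≤ ∫ x, Real.log x ∂(μ i)) ∧
      ∀ i, (μ i).real {0} ≤ ((C.cover (c.N i)).betti ℝ k : ℝ) / ((c.N i).index : ℝ) := by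
  obtain ⟨R, hR⟩ := exists_R C
  choose μ h1 h2 h3 h4 h5 using fun i => cover_meas C k hR (c.N i)
  refine ⟨R, μ, h1, fun n => ?_, h3, h4, h5⟩
  refine Tendsto.congr' ?_ tendsto_const_nhds
  filter_upwards [eventually_moment C c k n] with i hi
  rw [h2 i n, hi]

/-- **Existence of the spectral measure** over a residually finite group. -/
theorem exists_spectral (C : BCx (GR Γ)) (c : ResChain Γ) (k : ℕ) : ∃ μ, C.IsSpectral k μ := by
  obtain ⟨R, μ, h1, h2, -, -, -⟩ := exists_seq C c k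
  obtain ⟨ν, hν, hm⟩ := exists_limit h1 h2
  exact ⟨ν, hν.fin, ⟨R, hν.supp⟩, hm⟩

theorem isSpectral_on {C : BCx (GR Γ)} {k : ℕ} {μ : Measure ℝ} (h : C.IsSpectral k μ) :
    ∃ R, On R μ := by
  obtain ⟨R, hR⟩ := h.bounded
  exact ⟨R, h.finite, hR⟩

theorem integrableOn_log {R : ℝ} {μ : Measure ℝ} (h : On R μ) :
    IntegrableOn Real.log (Ioi 0) μ ↔ Integrable Real.log μ := by
  constructor
  · intro hi
    have h1 : Integrable (fun x => (Ioi (0 : ℝ)).indicator Real.log x) μ :=
      hi.integrable_indicator measurableSet_Ioi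
    refine h1.congr (h.ae.mono fun x hx => ?_)
    show (Ioi (0 : ℝ)).indicator Real.log x = Real.log x
    by_cases hx0 : 0 < x
    · rw [Set.indicator_of_mem (show x ∈ Ioi (0 : ℝ) from hx0)]
    · have : x = 0 := le_antisymm (not_lt.1 hx0) hx.1
      rw [this, Real.log_zero]
      simp
  · exact fun hi => hi.integrableOn

/-- **Lueck approximation**: if the normalised Betti numbers of the covers tend to zero, then the
spectral measure has no atom at zero and the logarithm is integrable. -/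
theorem luck {C : BCx (GR Γ)} {c : ResChain Γ} {k : ℕ} {μ : Measure ℝ} (hμ : C.IsSpectral k μ)
    (h : Tendsto (fun i => ((C.cover (c.N i)).betti ℝ k : ℝ) / ((c.N i).index : ℝ)) atTop (𝓝 0)) :
    μ {0} = 0 ∧ IntegrableOn Real.log (Ioi 0) μ := by
  obtain ⟨R, κ, h1, h2, h3, h4, h5⟩ := exists_seq C c k
  obtain ⟨R', hR'⟩ := isSpectral_on hμ
  have hon : On (max R R') μ := hR'.mono (le_max_right _ _)
  haveI := hμ.finite
  obtain ⟨a1, a2, -⟩ := lueck (fun i => (h1 i).mono (le_max_left R R')) hon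
    (fun n => by rw [hμ.moment n]; exact h2 n) h3 h4
  refine ⟨?_, (integrableOn_log hon).2 a2⟩
  have h6 : μ.real {0} ≤ 0 := le_of_tendsto_of_tendsto' a1 h h5
  have h7 : μ.real {0} = 0 := le_antisymm h6 measureReal_nonneg
  exact (measureReal_eq_zero_iff).1 h7

end Pool.H29.L2
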