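import Pool.Agent.H29.L2.PSD
import Pool.Agent.H3.L2.Tensor

/-!
Integer complexes: combinatorial Laplacian in degree `k`, kernel at most the Betti number.
-/

set_option autoImplicit false
set_option linter.style.haveILetI false

open MeasureTheory Filter Topology Set
open scoped ENNReal NNReal

namespace Pool.H29.L2

open Pool.H3.L2 Pool.H29.Mom

/-- powers of a block matrix -/
theorem submatrix_pow {U R : Type*} [Fintype U] [DecidableEq U] [Ring R] {p : U → Prop}
    [Fintype {u // p u}] {B : Matrix U U R} (hB : ∀ u v, B u v ≠ 0 → (p u ↔ p v)) (n : ℕ) :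
    (B.submatrix (Subtype.val : {u // p u} → U) (Subtype.val : {u // p u} → U)) ^ n =
      (B ^ n).submatrix (Subtype.val : {u // p u} → U) (Subtype.val : {u // p u} → U) := by
  classical
  induction n with
  | zero =>
    ext u v
    simp [Matrix.one_apply, Subtype.ext_iff]
  | succ n ih =>
    rw [pow_succ, pow_succ, ih]
    ext u v
    simp only [Matrix.mul_apply, Matrix.submatrix_apply]
    symm
    rw [← Finset.sum_filter_add_sum_filter_not Finset.univ p]
    have h1 : ∑ x ∈ Finset.univ.filter (fun x => ¬ p x), (B ^ n) u x * B x v = 0 := by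
      refine Finset.sum_eq_zero fun x hx => ?_
      have hx' : ¬ p x := (Finset.mem_filter.1 hx).2
      by_cases h : B x v = 0
      · rw [h, mul_zero]
      · exact absurd ((hB x v.1 h).2 v.2) hx'
    rw [h1, add_zero]
    rw [Finset.sum_subtype (Finset.univ.filter p) (p := p) (fun x => by simp)]

/-- the combinatorial Laplacian of an integer complex -/
def lapZ (B : BCx ℤ) : Matrix B.S B.S ℤ := B.D * B.D.transpose + B.D.transpose * B.D

theorem lapZ_deg (B : BCx ℤ) (u v : B.S) (h : lapZ B u v ≠ 0) : B.deg u = B.deg v := by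
  by_contra hne
  apply h
  unfold lapZ
  rw [Matrix.add_apply, Matrix.mul_apply, Matrix.mul_apply]
  have h1 : ∑ j, B.D u j * B.D.transpose j v = 0 := by
    refine Finset.sum_eq_zero fun j _ => ?_
    rw [Matrix.transpose_apply]
    by_contra hc
    have h2 := B.deg_D u j (left_ne_zero_of_mul hc)
    have h3 := B.deg_D v j (right_ne_zero_of_mul hc)
    omega
  have h2 : ∑ j, B.D.transpose u j * B.D j v = 0 := by
    refine Finset.sum_eq_zero fun j _ => ?_
    rw [Matrix.transpose_apply]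
    by_contra hc
    have h2 := B.deg_D j u (left_ne_zero_of_mul hc)
    have h3 := B.deg_D j v (right_ne_zero_of_mul hc)
    omega
  rw [h1, h2, add_zero]

/-- degree `k` part -/
def lapZk (B : BCx ℤ) (k : ℕ) : Matrix {u : B.S // B.deg u = k} {u : B.S // B.deg u = k} ℤ :=
  (lapZ B).submatrix Subtype.val Subtype.val

theorem lapZk_pow (B : BCx ℤ) (k n : ℕ) :
    (lapZk B k) ^ n = ((lapZ B) ^ n).submatrix Subtype.val Subtype.val :=
  submatrix_pow (p := fun u => B.deg u = k)
    (fun u v h => by rw [lapZ_deg B u v h]) n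

theorem trace_lapZk (B : BCx ℤ) (k n : ℕ) :
    ((lapZk B k) ^ n).trace = ∑ u : B.S, if B.deg u = k then ((lapZ B) ^ n) u u else 0 := by
  rw [lapZk_pow, Matrix.trace, ← Finset.sum_filter]
  rw [Finset.sum_subtype (Finset.univ.filter fun u => B.deg u = k) (p := fun u => B.deg u = k)
    (fun x => by simp)]
  rfl

theorem map_lapZ (B : BCx ℤ) : (lapZ B).map (Int.cast : ℤ → ℝ) =
    (B.D.map (Int.cast : ℤ → ℝ)) * (B.D.map (Int.cast : ℤ → ℝ)).transpose +
      (B.D.map (Int.cast : ℤ → ℝ)).transpose * (B.D.map (Int.cast : ℤ → ℝ)) := by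
  have h := (Int.castRingHom ℝ).mapMatrix.map_add (B.D * B.D.transpose) (B.D.transpose * B.D)
  rw [map_mul, map_mul] at h
  exact h

theorem lapZk_map (B : BCx ℤ) (k : ℕ) : (lapZk B k).map (Int.cast : ℤ → ℝ) =
    ((lapZ B).map (Int.cast : ℤ → ℝ)).submatrix Subtype.val Subtype.val := rfl

theorem lapZk_psd (B : BCx ℤ) (k : ℕ) : ((lapZk B k).map (Int.cast : ℤ → ℝ)).PosSemidef := by
  rw [lapZk_map, map_lapZ]
  refine Matrix.PosSemidef.submatrix ?_ _
  have h1 := Matrix.posSemidef_self_mul_conjTranspose (B.D.map (Int.cast : ℤ → ℝ))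
  have h2 := Matrix.posSemidef_conjTranspose_mul_self (B.D.map (Int.cast : ℤ → ℝ))
  rw [Matrix.conjTranspose_eq_transpose_of_trivial] at h1 h2
  exact h1.add h2

/-- extension by zero -/
def extk (B : BCx ℤ) (k : ℕ) : ({u : B.S // B.deg u = k} → ℝ) →ₗ[ℝ] (B.S → ℝ) where
  toFun v := fun u => if h : B.deg u = k then v ⟨u, h⟩ else 0
  map_add' v w := by
    funext u
    by_cases h : B.deg u = k <;> simp [h]
  map_smul' c v := by
    funext u
    by_cases h : B.deg u = k <;> simp [h]

theorem extk_apply (B : BCx ℤ) (k : ℕ) (v : {u : B.S // B.deg u = k} → ℝ)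
    (u : {u : B.S // B.deg u = k}) : extk B k v u.1 = v u := by
  show (if h : B.deg u.1 = k then v ⟨u.1, h⟩ else 0) = v u
  rw [dif_pos u.2]

theorem extk_of_ne (B : BCx ℤ) (k : ℕ) (v : {u : B.S // B.deg u = k} → ℝ)
    {u : B.S} (h : B.deg u ≠ k) : extk B k v u = 0 := by
  show (if h : B.deg u = k then v ⟨u, h⟩ else 0) = 0
  rw [dif_neg h]

theorem extk_inj (B : BCx ℤ) (k : ℕ) : Function.Injective (extk B k) := by
  intro v w h
  funext u
  have h1 := congrFun h u.1
  rwa [extk_apply, extk_apply] at h1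

open scoped Matrix in
theorem harmonic (B : BCx ℤ) (k : ℕ) {v : {u : B.S // B.deg u = k} → ℝ}
    (hv : (lapZk B k).map (Int.cast : ℤ → ℝ) *ᵥ v = 0) :
    (extk B k v) ᵥ* (B.D.map (Int.cast : ℤ → ℝ)) = 0 ∧
      (B.D.map (Int.cast : ℤ → ℝ)) *ᵥ (extk B k v) = 0 := by
  classical
  set M := B.D.map (Int.cast : ℤ → ℝ) with hM
  set w := extk B k v with hw
  -- the quadratic form
  have h1 : w ⬝ᵥ (((lapZ B).map (Int.cast : ℤ → ℝ)) *ᵥ w) = 0 := by
    rw [dotProduct]
    refine Finset.sum_eq_zero fun u _ => ?_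
    by_cases h : B.deg u = k
    · have h2 : (((lapZ B).map (Int.cast : ℤ → ℝ)) *ᵥ w) u = 0 := by
        have h3 := congrFun hv ⟨u, h⟩
        rw [Pi.zero_apply] at h3
        rw [← h3]
        simp only [Matrix.mulVec, dotProduct]
        rw [← Finset.sum_filter_add_sum_filter_not Finset.univ (fun x => B.deg x = k)]
        have h4 : ∑ x ∈ Finset.univ.filter (fun x => ¬ B.deg x = k),
            ((lapZ B).map (Int.cast : ℤ → ℝ)) u x * w x = 0 := by
          refine Finset.sum_eq_zero fun x hx => ?_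
          rw [hw, extk_of_ne B k v (Finset.mem_filter.1 hx).2, mul_zero]
        rw [h4, add_zero, Finset.sum_subtype (Finset.univ.filter fun u => B.deg u = k)
          (p := fun u => B.deg u = k) (fun x => by simp)]
        refine Finset.sum_congr rfl fun x _ => ?_
        rw [hw, extk_apply]
        rfl
      rw [h2, mul_zero]
    · rw [hw, extk_of_ne B k v h, zero_mul]
  rw [map_lapZ, ← hM, Matrix.add_mulVec, dotProduct_add] at h1
  have h2 : w ⬝ᵥ ((M * M.transpose) *ᵥ w) = (w ᵥ* M) ⬝ᵥ (w ᵥ* M) := by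
    rw [← Matrix.mulVec_mulVec, Matrix.dotProduct_mulVec, Matrix.mulVec_transpose]
  have h3 : w ⬝ᵥ ((M.transpose * M) *ᵥ w) = (M *ᵥ w) ⬝ᵥ (M *ᵥ w) := by
    rw [← Matrix.mulVec_mulVec, Matrix.dotProduct_mulVec, Matrix.vecMul_transpose]
  rw [h2, h3] at h1
  have h4 : 0 ≤ (w ᵥ* M) ⬝ᵥ (w ᵥ* M) := Finset.sum_nonneg fun i _ => mul_self_nonneg _
  have h5 : 0 ≤ (M *ᵥ w) ⬝ᵥ (M *ᵥ w) := Finset.sum_nonneg fun i _ => mul_self_nonneg _
  exact ⟨dotProduct_self_eq_zero.1 (by linarith), dotProduct_self_eq_zero.1 (by linarith)⟩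

open scoped Matrix in
theorem dot_zero {S : Type} [Fintype S] {M : Matrix S S ℝ} {w e : S → ℝ} (h1 : w ᵥ* M = e)
    (h2 : M *ᵥ e = 0) : e ⬝ᵥ e = 0 := by
  nth_rewrite 1 [← h1]
  rw [← Matrix.dotProduct_mulVec, h2, dotProduct_zero]

open scoped Matrix in
/-- the kernel of the Laplacian injects into homology -/
theorem finrank_ker_le (B : BCx ℤ) (k : ℕ) :
    Module.finrank ℝ (LinearMap.ker ((lapZk B k).map (Int.cast : ℤ → ℝ)).mulVecLin) ≤
      B.betti ℝ k := by
  classical
  set A := (lapZk B k).map (Int.cast : ℤ → ℝ) with hA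
  set BR := B.map (Int.castRingHom ℝ) with hBR
  have hz : ∀ v : LinearMap.ker A.mulVecLin, extk B k v.1 ∈ BR.Zk k := by
    intro v
    have hv : A *ᵥ v.1 = 0 := v.2
    exact ⟨fun s hs => extk_of_ne B k v.1 hs, (harmonic B k hv).1⟩
  let f : LinearMap.ker A.mulVecLin →ₗ[ℝ] BR.Zk k :=
    LinearMap.codRestrict (BR.Zk k) ((extk B k).comp (Submodule.subtype _)) hz
  let g : LinearMap.ker A.mulVecLin →ₗ[ℝ] BR.Hk k := (Submodule.mkQ _).comp f
  have hg : Function.Injective g := by
    rw [← LinearMap.ker_eq_bot, LinearMap.ker_eq_bot']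
    intro v hv
    have hv' : A *ᵥ v.1 = 0 := v.2
    have h1 : f v ∈ (BR.Bk k).submoduleOf (BR.Zk k) := (Submodule.Quotient.mk_eq_zero _).1 hv
    obtain ⟨w, _, hwD⟩ := h1
    have h3 : extk B k v.1 ⬝ᵥ extk B k v.1 = 0 := dot_zero hwD (harmonic B k hv').2
    have h4 := dotProduct_self_eq_zero.1 h3
    have h5 : v.1 = 0 := extk_inj B k (by rw [h4, map_zero])
    exact Subtype.ext h5
  exact LinearMap.finrank_le_finrank_of_injective hg

end Pool.H29.L2
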