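import Pool.Agent.H29.Moments

/-!
The normalised spectral measure of an integral positive semidefinite matrix.
-/

set_option autoImplicit false
set_option linter.style.haveILetI false

open MeasureTheory Filter Topology Set
open scoped ENNReal NNReal

namespace Pool.H29.Mom

section Herm

variable {ι : Type*} [Fintype ι] [DecidableEq ι] {A : Matrix ι ι ℝ}

theorem trace_pow_eq (hA : A.IsHermitian) (n : ℕ) : (A ^ n).trace = ∑ i, hA.eigenvalues i ^ n := by
  have h1 : A ^ n = Unitary.conjStarAlgAut ℝ _ hA.eigenvectorUnitary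
      (Matrix.diagonal (fun i => hA.eigenvalues i ^ n)) := by
    conv_lhs => rw [hA.spectral_theorem]
    rw [← map_pow, Matrix.diagonal_pow]
    congr 1
  rw [h1, Unitary.conjStarAlgAut_apply, Matrix.trace_mul_cycle]
  have h2 : star (hA.eigenvectorUnitary : Matrix ι ι ℝ) * (hA.eigenvectorUnitary : Matrix ι ι ℝ) = 1 :=
    Unitary.coe_star_mul_self _
  rw [h2, one_mul, Matrix.trace_diagonal]

theorem eigenvalues_le (hA : A.IsHermitian) {R : ℝ} (hR : ∀ s, ∑ t, |A s t| ≤ R) (i : ι) :
    hA.eigenvalues i ≤ R := by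
  set v : ι → ℝ := (hA.eigenvectorBasis i : ι → ℝ) with hv
  have hv0 : v ≠ 0 := by
    have := hA.eigenvectorBasis.orthonormal.ne_zero i
    intro h
    apply this
    ext j
    exact congrFun h j
  have hmul : A.mulVec v = hA.eigenvalues i • v := hA.mulVec_eigenvectorBasis i
  obtain ⟨j0, hj0⟩ := Function.ne_iff.1 hv0
  obtain ⟨j, _, hj⟩ := Finset.exists_max_image Finset.univ (fun j => |v j|) ⟨j0, Finset.mem_univ _⟩
  have hjpos : 0 < |v j| := lt_of_lt_of_le (abs_pos.2 hj0) (hj j0 (Finset.mem_univ _))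
  have h1 : hA.eigenvalues i * v j = ∑ t, A j t * v t := by
    have := congrFun hmul j
    rw [Pi.smul_apply, smul_eq_mul] at this
    rw [← this]
    rfl
  have h2 : |hA.eigenvalues i| * |v j| ≤ R * |v j| := by
    rw [← abs_mul, h1]
    refine (Finset.abs_sum_le_sum_abs _ _).trans ?_
    refine le_trans (Finset.sum_le_sum (g := fun t => |A j t| * |v j|) fun t _ => ?_) ?_
    · rw [abs_mul]
      exact mul_le_mul_of_nonneg_left (hj t (Finset.mem_univ _)) (abs_nonneg _)
    · rw [← Finset.sum_mul]
      exact mul_le_mul_of_nonneg_right (hR j) hjpos.le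
  exact (le_abs_self _).trans (le_of_mul_le_mul_right h2 hjpos)

theorem card_zero_eigs (hA : A.IsHermitian) :
    Fintype.card {i // hA.eigenvalues i = 0} = Module.finrank ℝ (LinearMap.ker A.mulVecLin) := by
  have h1 := hA.rank_eq_card_non_zero_eigs
  have h2 : A.rank + Module.finrank ℝ (LinearMap.ker A.mulVecLin) = Fintype.card ι := by
    have := LinearMap.finrank_range_add_finrank_ker A.mulVecLin
    rw [Module.finrank_pi] at this
    exact this
  have h3 : Fintype.card {i // hA.eigenvalues i ≠ 0} + Fintype.card {i // hA.eigenvalues i = 0} =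
      Fintype.card ι := by
    have := Fintype.card_subtype_compl (fun i => hA.eigenvalues i = 0)
    have h4 : Fintype.card {i // hA.eigenvalues i = 0} ≤ Fintype.card ι := Fintype.card_subtype_le _
    have h5 : Fintype.card {i // hA.eigenvalues i ≠ 0} =
      Fintype.card {i // ¬ hA.eigenvalues i = 0} := rfl
    omega
  omega

end Herm

/-- the product of the nonzero eigenvalues of an integral positive semidefinite matrix is at
least one -/
theorem sum_log_nonneg {ι : Type*} [Fintype ι] [DecidableEq ι] (L : Matrix ι ι ℤ)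
    (hL : (L.map (Int.cast : ℤ → ℝ)).PosSemidef) :
    0 ≤ ∑ i, Real.log (hL.1.eigenvalues i) := by
  classical
  set lam := hL.1.eigenvalues with hlam
  have hnn : ∀ i, 0 ≤ lam i := fun i => hL.eigenvalues_nonneg i
  -- only nonzero eigenvalues matter
  set T : Finset ι := Finset.univ.filter fun i => lam i ≠ 0 with hT
  have h1 : ∑ i, Real.log (lam i) = ∑ i ∈ T, Real.log (lam i) := by
    rw [hT, Finset.sum_filter]
    refine Finset.sum_congr rfl fun i _ => ?_
    split_ifs with h
    · rfl
    · rw [not_not.1 h, Real.log_zero]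
  have hpos : ∀ i ∈ T, 0 < lam i := fun i hi =>
    lt_of_le_of_ne (hnn i) (Ne.symm (Finset.mem_filter.1 hi).2)
  rw [h1, ← Real.log_prod fun i hi => (hpos i hi).ne']
  refine Real.log_nonneg ?_
  -- the product is up to sign a coefficient of the characteristic polynomial
  have h2 : (L.map (Int.cast : ℤ → ℝ)).charpoly =
      Polynomial.X ^ (Finset.univ.filter fun i => ¬ lam i ≠ 0).card *
        ∏ i ∈ T, (Polynomial.X - Polynomial.C (lam i)) := by
    rw [hL.1.charpoly_eq, ← Finset.prod_filter_mul_prod_filter_not Finset.univ (fun i => lam i ≠ 0),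
      mul_comm]
    congr 1
    rw [Finset.prod_congr rfl (g := fun _ => Polynomial.X), Finset.prod_const]
    intro i hi
    have : lam i = 0 := not_not.1 (Finset.mem_filter.1 hi).2
    simp [← hlam, this]
  set r := (Finset.univ.filter fun i => ¬ lam i ≠ 0).card with hr
  have h3 : (L.map (Int.cast : ℤ → ℝ)).charpoly.coeff r = ∏ i ∈ T, (-lam i) := by
    rw [h2, mul_comm, Polynomial.coeff_mul_X_pow', if_pos le_rfl, Nat.sub_self,
      Polynomial.coeff_zero_eq_eval_zero, Polynomial.eval_prod]
    exact Finset.prod_congr rfl fun i _ => by simp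
  have h4 : (L.map (Int.cast : ℤ → ℝ)).charpoly.coeff r = ((L.charpoly.coeff r : ℤ) : ℝ) := by
    have : (L.map (Int.cast : ℤ → ℝ)).charpoly = L.charpoly.map (Int.castRingHom ℝ) :=
      Matrix.charpoly_map L (Int.castRingHom ℝ)
    rw [this, Polynomial.coeff_map]
    rfl
  have h5 : |∏ i ∈ T, (-lam i)| = ∏ i ∈ T, lam i := by
    rw [Finset.abs_prod]
    exact Finset.prod_congr rfl fun i hi => by rw [abs_neg, abs_of_pos (hpos i hi)]
  have h6 : L.charpoly.coeff r ≠ 0 := by
    intro h0
    rw [h0, Int.cast_zero] at h4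
    rw [h4] at h3
    rw [← h3, abs_zero] at h5
    exact (Finset.prod_pos hpos).ne h5
  rw [← h5, ← h3, h4, ← Int.cast_abs]
  exact_mod_cast Int.one_le_abs h6

/-- the normalised spectral measure of an integral positive semidefinite matrix -/
theorem exists_meas {ι : Type*} [Fintype ι] [DecidableEq ι] (L : Matrix ι ι ℤ)
    (hL : (L.map (Int.cast : ℤ → ℝ)).PosSemidef) {R : ℝ}
    (hR : ∀ s, ∑ t, |((L s t : ℤ) : ℝ)| ≤ R) {c : ℝ} (hc : 0 ≤ c) :
    ∃ μ : Measure ℝ, On R μ ∧ (∀ n, ∫ x, x ^ n ∂μ = c * (((L ^ n).trace : ℤ) : ℝ)) ∧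
      Integrable Real.log μ ∧ 0 ≤ ∫ x, Real.log x ∂μ ∧
      μ.real {0} = c * (Module.finrank ℝ (LinearMap.ker (L.map (Int.cast : ℤ → ℝ)).mulVecLin) : ℝ) := by
  classical
  set A := L.map (Int.cast : ℤ → ℝ) with hA
  set lam := hL.1.eigenvalues with hlam
  have hint : ∀ f : ℝ → ℝ, Measurable f → Integrable f (∑ i, Measure.dirac (lam i)) ∧
      ∫ x, f x ∂(∑ i, Measure.dirac (lam i)) = ∑ i, f (lam i) := by
    intro f hf
    have h1 : ∀ i ∈ (Finset.univ : Finset ι), Integrable f (Measure.dirac (lam i)) := fun i _ =>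
      integrable_dirac (by simp)
    refine ⟨(integrable_finsetSum_measure).2 h1, ?_⟩
    rw [integral_finsetSum_measure h1]
    exact Finset.sum_congr rfl fun i _ => integral_dirac _ _
  have hlamR : ∀ i, lam i ∈ Icc 0 R := fun i =>
    ⟨hL.eigenvalues_nonneg i, eigenvalues_le hL.1 (by simpa [hA] using hR) i⟩
  have hon : On R (∑ i, Measure.dirac (lam i)) := by
    refine On.sum _ fun i _ => ⟨inferInstance, ?_⟩
    rw [Measure.dirac_apply' _ measurableSet_Icc.compl]
    simp [hlamR i]
  refine ⟨ENNReal.ofReal c • ∑ i, Measure.dirac (lam i), hon.smul ENNReal.ofReal_ne_top, ?_, ?_, ?_, ?_⟩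
  · intro n
    rw [integral_smul_measure, (hint _ (by fun_prop)).2, ENNReal.toReal_ofReal hc, smul_eq_mul,
      ← trace_pow_eq hL.1 n]
    congr 1
    have h1 : A ^ n = (L ^ n).map (Int.cast : ℤ → ℝ) := by
      have := map_pow (Int.castRingHom ℝ).mapMatrix L n
      rw [hA]
      exact this.symm
    rw [h1]
    simp [Matrix.trace]
  · exact (hint _ Real.measurable_log).1.smul_measure ENNReal.ofReal_ne_top
  · rw [integral_smul_measure, (hint _ Real.measurable_log).2, ENNReal.toReal_ofReal hc, smul_eq_mul]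
    exact mul_nonneg hc (sum_log_nonneg L hL)
  · rw [← card_zero_eigs hL.1]
    rw [Measure.real, Measure.smul_apply, smul_eq_mul, ENNReal.toReal_mul, ENNReal.toReal_ofReal hc]
    congr 1
    rw [Measure.finsetSum_apply, Fintype.card_subtype]
    simp only [Measure.dirac_apply' _ (measurableSet_singleton (0 : ℝ))]
    simp [Set.indicator_apply, hlam]

end Pool.H29.Mom
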